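import Mathlib

namespace Pool.Agent.Results.MP_80b09e_al.OnlyIf

/-! ### Thompson's group `F` -/

/-- Dyadic rational numbers. -/
def IsDyadic (x : ℝ) : Prop := ∃ (m : ℤ) (n : ℕ), x = m / 2 ^ n

/-- `f` is piecewise linear on `[0,1]`, with finitely many breakpoints, all dyadic and in `(0,1)`,
and with all slopes integer powers of `2`. -/
def IsPL (f : ℝ → ℝ) : Prop :=
  ∃ B : Finset ℝ, (∀ b ∈ B, IsDyadic b ∧ 0 < b ∧ b < 1) ∧
    ∀ a b : ℝ, 0 ≤ a → a < b → b ≤ 1 → (∀ c ∈ B, ¬ (a < c ∧ c < b)) →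
      ∃ (k : ℤ) (d : ℝ), ∀ x, a ≤ x → x ≤ b → f x = (2 : ℝ) ^ k * x + d

theorem IsDyadic.add {x y : ℝ} (hx : IsDyadic x) (hy : IsDyadic y) : IsDyadic (x + y) := by
  obtain ⟨m, n, rfl⟩ := hx
  obtain ⟨m', n', rfl⟩ := hy
  refine ⟨m * 2 ^ n' + m' * 2 ^ n, n + n', ?_⟩
  push_cast
  rw [pow_add]
  field_simp

theorem IsDyadic.neg {x : ℝ} (hx : IsDyadic x) : IsDyadic (-x) := by
  obtain ⟨m, n, rfl⟩ := hx
  exact ⟨-m, n, by push_cast; ring⟩

theorem IsDyadic.sub {x y : ℝ} (hx : IsDyadic x) (hy : IsDyadic y) : IsDyadic (x - y) := by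
  rw [sub_eq_add_neg]; exact hx.add hy.neg

theorem IsDyadic.zpow_mul {x : ℝ} (hx : IsDyadic x) (k : ℤ) : IsDyadic ((2 : ℝ) ^ k * x) := by
  obtain ⟨m, n, rfl⟩ := hx
  obtain ⟨j, rfl | rfl⟩ := Int.eq_nat_or_neg k
  · refine ⟨m * 2 ^ j, n, ?_⟩
    push_cast
    rw [zpow_natCast]
    ring
  · refine ⟨m, n + j, ?_⟩
    rw [zpow_neg, zpow_natCast, pow_add]
    field_simp

theorem isDyadic_zero : IsDyadic 0 := ⟨0, 0, by simp⟩

section PL

variable {f : ℝ ≃o ℝ} {B : Finset ℝ}

theorem exists_prev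
    (hB : ∀ b ∈ B, IsDyadic b ∧ 0 < b ∧ b < 1)
    (hf : ∀ a b : ℝ, 0 ≤ a → a < b → b ≤ 1 → (∀ c ∈ B, ¬ (a < c ∧ c < b)) →
      ∃ (k : ℤ) (d : ℝ), ∀ x, a ≤ x → x ≤ b → f x = (2 : ℝ) ^ k * x + d)
    (x : ℝ) (hx0 : 0 < x) (hx1 : x ≤ 1) :
    ∃ b, 0 ≤ b ∧ b < x ∧ IsDyadic b ∧ (b = 0 ∨ b ∈ B) ∧
      ∃ k : ℤ, f x = f b + (2 : ℝ) ^ k * (x - b) := by
  by_cases hne : (B.filter (· < x)).Nonempty
  · set b := (B.filter (· < x)).max' hne with hb
    have hbm : b ∈ B.filter (· < x) := Finset.max'_mem _ _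
    rw [Finset.mem_filter] at hbm
    obtain ⟨hb1, hb2, hb3⟩ := hB b hbm.1
    obtain ⟨k, d, hk⟩ := hf b x hb2.le hbm.2 hx1 (by
      rintro c hc ⟨hbc, hcx⟩
      have : c ≤ b := Finset.le_max' _ _ (Finset.mem_filter.mpr ⟨hc, hcx⟩)
      linarith)
    refine ⟨b, hb2.le, hbm.2, hb1, Or.inr hbm.1, k, ?_⟩
    rw [hk x hbm.2.le le_rfl, hk b le_rfl hbm.2.le]
    ring
  · obtain ⟨k, d, hk⟩ := hf 0 x le_rfl hx0 hx1 (by
      rintro c hc ⟨h0c, hcx⟩
      exact hne ⟨c, Finset.mem_filter.mpr ⟨hc, hcx⟩⟩)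
    refine ⟨0, le_rfl, hx0, isDyadic_zero, Or.inl rfl, k, ?_⟩
    rw [hk x hx0.le le_rfl, hk 0 le_rfl hx0.le]
    ring

theorem map_dyadic (h0 : ∀ x, x ≤ 0 → f x = x)
    (hB : ∀ b ∈ B, IsDyadic b ∧ 0 < b ∧ b < 1)
    (hf : ∀ a b : ℝ, 0 ≤ a → a < b → b ≤ 1 → (∀ c ∈ B, ¬ (a < c ∧ c < b)) →
      ∃ (k : ℤ) (d : ℝ), ∀ x, a ≤ x → x ≤ b → f x = (2 : ℝ) ^ k * x + d) :
    ∀ (n : ℕ) (x : ℝ), 0 ≤ x → x ≤ 1 → IsDyadic x → (B.filter (· < x)).card = n →
      IsDyadic (f x) := by
  intro n
  induction n using Nat.strong_induction_on with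
  | _ n ih =>
    intro x hx0 hx1 hxd hn
    rcases hx0.eq_or_lt with rfl | hx0
    · rw [h0 0 le_rfl]; exact isDyadic_zero
    · obtain ⟨b, hb0, hbx, hbd, hbB, k, hk⟩ := exists_prev hB hf x hx0 hx1
      have hfb : IsDyadic (f b) := by
        rcases hbB with rfl | hbB
        · rw [h0 0 le_rfl]; exact isDyadic_zero
        · refine ih _ ?_ b hb0 (hbx.le.trans hx1) hbd rfl
          rw [← hn]
          apply Finset.card_lt_card
          rw [Finset.ssubset_iff_of_subset]
          · exact ⟨b, Finset.mem_filter.mpr ⟨hbB, hbx⟩, by simp⟩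
          · intro c hc
            rw [Finset.mem_filter] at hc ⊢
            exact ⟨hc.1, hc.2.trans hbx⟩
      rw [hk]
      exact hfb.add ((hxd.sub hbd).zpow_mul k)

theorem inv_dyadic (h0 : ∀ x, x ≤ 0 → f x = x)
    (hB : ∀ b ∈ B, IsDyadic b ∧ 0 < b ∧ b < 1)
    (hf : ∀ a b : ℝ, 0 ≤ a → a < b → b ≤ 1 → (∀ c ∈ B, ¬ (a < c ∧ c < b)) →
      ∃ (k : ℤ) (d : ℝ), ∀ x, a ≤ x → x ≤ b → f x = (2 : ℝ) ^ k * x + d)
    (x : ℝ) (hx0 : 0 ≤ x) (hx1 : x ≤ 1) (hd : IsDyadic (f x)) : IsDyadic x := by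
  rcases hx0.eq_or_lt with rfl | hx0
  · exact isDyadic_zero
  · obtain ⟨b, hb0, hbx, hbd, -, k, hk⟩ := exists_prev hB hf x hx0 hx1
    have hfb : IsDyadic (f b) :=
      map_dyadic h0 hB hf _ b hb0 (hbx.le.trans hx1) hbd rfl
    have h2 : x = b + (2 : ℝ) ^ (-k) * (f x - f b) := by
      rw [hk, zpow_neg]
      have : (2 : ℝ) ^ k ≠ 0 := zpow_ne_zero _ (by norm_num)
      field_simp
      ring
    rw [h2]
    exact hbd.add ((hd.sub hfb).zpow_mul (-k))

end PL

/-- Thompson's group `F`: the piecewise linear homeomorphisms of `[0,1]` (extended by the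
identity to the real line) with finitely many breakpoints, all dyadic and in `(0,1)`, and all
slopes integer powers of `2`. -/
def F : Subgroup (ℝ ≃o ℝ) where
  carrier := {f | (∀ x, x ≤ 0 → f x = x) ∧ (∀ x, 1 ≤ x → f x = x) ∧ IsPL f}
  one_mem' := by
    refine ⟨fun x _ => rfl, fun x _ => rfl, ∅, by simp, fun a b _ _ _ _ => ⟨0, 0, fun x _ _ => ?_⟩⟩
    simp
  mul_mem' := by
    classical
    rintro f g ⟨hf0, hf1, Bf, hBf, hf⟩ ⟨hg0, hg1, Bg, hBg, hg⟩
    refine ⟨fun x hx => ?_, fun x hx => ?_, Bg ∪ Bf.image (g⁻¹ : ℝ ≃o ℝ), ?_, ?_⟩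
    · rw [RelIso.mul_apply, hg0 x hx, hf0 x hx]
    · rw [RelIso.mul_apply, hg1 x hx, hf1 x hx]
    · intro b hb
      rw [Finset.mem_union, Finset.mem_image] at hb
      rcases hb with hb | ⟨c, hc, rfl⟩
      · exact hBg b hb
      · obtain ⟨hc1, hc2, hc3⟩ := hBf c hc
        have hgc : g ((g⁻¹ : ℝ ≃o ℝ) c) = c := RelIso.apply_inv_self g c
        have h0 : 0 < (g⁻¹ : ℝ ≃o ℝ) c := by
          rw [← g.lt_iff_lt, hgc, hg0 0 le_rfl]; exact hc2
        have h1 : (g⁻¹ : ℝ ≃o ℝ) c < 1 := by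
          rw [← g.lt_iff_lt, hgc, hg1 1 le_rfl]; exact hc3
        refine ⟨?_, h0, h1⟩
        apply inv_dyadic hg0 hBg hg _ h0.le h1.le
        rw [hgc]; exact hc1
    · intro a b ha hab hb hc
      obtain ⟨k, d, hk⟩ := hg a b ha hab hb (fun c hcB => hc c (Finset.mem_union_left _ hcB))
      obtain ⟨l, d', hl⟩ := hf (g a) (g b) (by rw [← hg0 0 le_rfl]; exact g.le_iff_le.mpr ha)
        (g.lt_iff_lt.mpr hab) (by rw [← hg1 1 le_rfl]; exact g.le_iff_le.mpr hb) (by
          rintro c hcB ⟨h1, h2⟩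
          apply hc ((g⁻¹ : ℝ ≃o ℝ) c) (Finset.mem_union_right _ (Finset.mem_image_of_mem _ hcB))
          refine ⟨?_, ?_⟩
          · rw [← g.lt_iff_lt, RelIso.apply_inv_self]; exact h1
          · rw [← g.lt_iff_lt, RelIso.apply_inv_self]; exact h2)
      refine ⟨l + k, (2 : ℝ) ^ l * d + d', fun x hax hxb => ?_⟩
      rw [RelIso.mul_apply, hl (g x) (g.le_iff_le.mpr hax) (g.le_iff_le.mpr hxb), hk x hax hxb,
        zpow_add₀ (by norm_num : (2 : ℝ) ≠ 0)]
      ring
  inv_mem' := by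
    classical
    rintro f ⟨hf0, hf1, B, hB, hf⟩
    have hi : ∀ x, f ((f⁻¹ : ℝ ≃o ℝ) x) = x := fun x => RelIso.apply_inv_self f x
    refine ⟨fun x hx => ?_, fun x hx => ?_, B.image f, ?_, ?_⟩
    · apply f.injective; rw [hi, hf0 x hx]
    · apply f.injective; rw [hi, hf1 x hx]
    · intro b hb
      rw [Finset.mem_image] at hb
      obtain ⟨c, hc, rfl⟩ := hb
      obtain ⟨hc1, hc2, hc3⟩ := hB c hc
      refine ⟨map_dyadic hf0 hB hf _ c hc2.le hc3.le hc1 rfl, ?_, ?_⟩
      · rw [← hf0 0 le_rfl]; exact f.lt_iff_lt.mpr hc2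
      · rw [← hf1 1 le_rfl]; exact f.lt_iff_lt.mpr hc3
    · intro a b ha hab hb hc
      obtain ⟨k, d, hk⟩ := hf ((f⁻¹ : ℝ ≃o ℝ) a) ((f⁻¹ : ℝ ≃o ℝ) b)
        (by rw [← f.le_iff_le, hi, hf0 0 le_rfl]; exact ha)
        (by rw [← f.lt_iff_lt, hi, hi]; exact hab)
        (by rw [← f.le_iff_le, hi, hf1 1 le_rfl]; exact hb)
        (by
          rintro c hcB ⟨h1, h2⟩
          apply hc (f c) (Finset.mem_image_of_mem _ hcB)
          rw [← f.lt_iff_lt, hi] at h1
          rw [← f.lt_iff_lt, hi] at h2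
          exact ⟨h1, h2⟩)
      refine ⟨-k, -((2 : ℝ) ^ (-k) * d), fun x hax hxb => ?_⟩
      have h2 := hk ((f⁻¹ : ℝ ≃o ℝ) x) (by rw [← f.le_iff_le, hi, hi]; exact hax)
        (by rw [← f.le_iff_le, hi, hi]; exact hxb)
      rw [hi] at h2
      have h3 : (2 : ℝ) ^ k ≠ 0 := zpow_ne_zero _ (by norm_num)
      rw [zpow_neg]
      nth_rewrite 2 [h2]
      field_simp
      ring

/-! ### Two elements of `F` -/

/-- the generator `x₀`, as a function -/
noncomputable def x0fun (t : ℝ) : ℝ := min t (max (t / 2) (max (t - 1 / 4) (2 * t - 1)))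

theorem x0fun_mono : StrictMono x0fun := by
  intro a b h
  unfold x0fun
  have h1 : a / 2 < b / 2 := by linarith
  have h2 : a - 1 / 4 < b - 1 / 4 := by linarith
  have h3 : 2 * a - 1 < 2 * b - 1 := by linarith
  exact min_lt_min h (max_lt_max h1 (max_lt_max h2 h3))

theorem x0fun_of_nonpos {t : ℝ} (h : t ≤ 0) : x0fun t = t := by
  unfold x0fun
  exact min_eq_left ((by linarith : t ≤ t / 2).trans (le_max_left _ _))

theorem x0fun_of_one_le {t : ℝ} (h : 1 ≤ t) : x0fun t = t := by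
  unfold x0fun
  exact min_eq_left ((by linarith : t ≤ 2 * t - 1).trans
    ((le_max_right _ _).trans (le_max_right _ _)))

theorem x0fun_a {t : ℝ} (h : 0 ≤ t) (h' : t ≤ 1 / 2) : x0fun t = t / 2 := by
  unfold x0fun
  rw [max_eq_left (a := t / 2), min_eq_right (by linarith)]
  exact max_le (by linarith) (by linarith)

theorem x0fun_b {t : ℝ} (h : 1 / 2 ≤ t) (h' : t ≤ 3 / 4) : x0fun t = t - 1 / 4 := by
  unfold x0fun
  rw [max_eq_left (a := t - 1 / 4) (by linarith), max_eq_right (by linarith),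
    min_eq_right (by linarith)]

theorem x0fun_c {t : ℝ} (h : 3 / 4 ≤ t) (h' : t ≤ 1) : x0fun t = 2 * t - 1 := by
  unfold x0fun
  rw [max_eq_right (b := 2 * t - 1) (by linarith), max_eq_right (by linarith),
    min_eq_right (by linarith)]

theorem x0fun_surj : Function.Surjective x0fun := by
  intro y
  rcases le_total y 0 with h0 | h0
  · exact ⟨y, x0fun_of_nonpos h0⟩
  rcases le_total y (1 / 4) with h1 | h1
  · exact ⟨2 * y, by rw [x0fun_a (by linarith) (by linarith)]; ring⟩
  rcases le_total y (1 / 2) with h2 | h2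
  · exact ⟨y + 1 / 4, by rw [x0fun_b (by linarith) (by linarith)]; ring⟩
  rcases le_total y 1 with h3 | h3
  · exact ⟨(y + 1) / 2, by rw [x0fun_c (by linarith) (by linarith)]; ring⟩
  · exact ⟨y, x0fun_of_one_le h3⟩

/-- the generator `x₀` -/
noncomputable def x0 : ℝ ≃o ℝ := x0fun_mono.orderIsoOfSurjective x0fun x0fun_surj

theorem x0_apply (t : ℝ) : x0 t = x0fun t := rfl

/-- the generator `x₁`, as a function -/
noncomputable def x1fun (t : ℝ) : ℝ := (1 + x0fun (2 * t - 1)) / 2

theorem x1fun_mono : StrictMono x1fun := by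
  intro a b h
  unfold x1fun
  have := x0fun_mono (show 2 * a - 1 < 2 * b - 1 by linarith)
  linarith

theorem x1fun_surj : Function.Surjective x1fun := by
  intro y
  obtain ⟨s, hs⟩ := x0fun_surj (2 * y - 1)
  refine ⟨(s + 1) / 2, ?_⟩
  unfold x1fun
  rw [show 2 * ((s + 1) / 2) - 1 = s by ring, hs]
  ring

/-- the generator `x₁` -/
noncomputable def x1 : ℝ ≃o ℝ := x1fun_mono.orderIsoOfSurjective x1fun x1fun_surj

theorem x1_apply (t : ℝ) : x1 t = (1 + x0fun (2 * t - 1)) / 2 := rfl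

theorem isDyadic_of (m : ℤ) (n : ℕ) {x : ℝ} (h : x = m / 2 ^ n) : IsDyadic x := ⟨m, n, h⟩

theorem x0_mem : x0 ∈ F := by
  refine ⟨fun x hx => x0fun_of_nonpos hx, fun x hx => x0fun_of_one_le hx, {1 / 2, 3 / 4}, ?_, ?_⟩
  · intro b hb
    simp only [Finset.mem_insert, Finset.mem_singleton] at hb
    rcases hb with rfl | rfl
    · exact ⟨isDyadic_of 1 1 (by norm_num), by norm_num, by norm_num⟩
    · exact ⟨isDyadic_of 3 2 (by norm_num), by norm_num, by norm_num⟩
  · intro a b ha hab hb hc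
    have h1 := hc (1 / 2) (by simp)
    have h2 := hc (3 / 4) (by simp)
    by_cases hb1 : b ≤ 1 / 2
    · refine ⟨-1, 0, fun x hx hx' => ?_⟩
      rw [x0_apply, x0fun_a (by linarith) (by linarith)]
      norm_num
      ring
    · have ha1 : 1 / 2 ≤ a := by
        by_contra hcon
        exact h1 ⟨by linarith, by linarith⟩
      by_cases hb2 : b ≤ 3 / 4
      · refine ⟨0, -1 / 4, fun x hx hx' => ?_⟩
        rw [x0_apply, x0fun_b (by linarith) (by linarith)]
        norm_num
        ring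
      · have ha2 : 3 / 4 ≤ a := by
          by_contra hcon
          exact h2 ⟨by linarith, by linarith⟩
        refine ⟨1, -1, fun x hx hx' => ?_⟩
        rw [x0_apply, x0fun_c (by linarith) (by linarith)]
        norm_num
        ring

theorem x1_mem : x1 ∈ F := by
  refine ⟨fun x hx => ?_, fun x hx => ?_, {1 / 2, 3 / 4, 7 / 8}, ?_, ?_⟩
  · rw [x1_apply, x0fun_of_nonpos (by linarith)]; ring
  · rw [x1_apply, x0fun_of_one_le (by linarith)]; ring
  · intro b hb
    simp only [Finset.mem_insert, Finset.mem_singleton] at hb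
    rcases hb with rfl | rfl | rfl
    · exact ⟨isDyadic_of 1 1 (by norm_num), by norm_num, by norm_num⟩
    · exact ⟨isDyadic_of 3 2 (by norm_num), by norm_num, by norm_num⟩
    · exact ⟨isDyadic_of 7 3 (by norm_num), by norm_num, by norm_num⟩
  · intro a b ha hab hb hc
    have h1 := hc (1 / 2) (by simp)
    have h2 := hc (3 / 4) (by simp)
    have h3 := hc (7 / 8) (by simp)
    by_cases hb1 : b ≤ 1 / 2
    · refine ⟨0, 0, fun x hx hx' => ?_⟩
      rw [x1_apply, x0fun_of_nonpos (by linarith)]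
      norm_num
    · have ha1 : 1 / 2 ≤ a := by
        by_contra hcon
        exact h1 ⟨by linarith, by linarith⟩
      by_cases hb2 : b ≤ 3 / 4
      · refine ⟨-1, 1 / 4, fun x hx hx' => ?_⟩
        rw [x1_apply, x0fun_a (by linarith) (by linarith)]
        norm_num
        ring
      · have ha2 : 3 / 4 ≤ a := by
          by_contra hcon
          exact h2 ⟨by linarith, by linarith⟩
        by_cases hb3 : b ≤ 7 / 8
        · refine ⟨0, -1 / 8, fun x hx hx' => ?_⟩
          rw [x1_apply, x0fun_b (by linarith) (by linarith)]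
          norm_num
          ring
        · have ha3 : 7 / 8 ≤ a := by
            by_contra hcon
            exact h3 ⟨by linarith, by linarith⟩
          refine ⟨1, -1, fun x hx hx' => ?_⟩
          rw [x1_apply, x0fun_c (by linarith) (by linarith)]
          norm_num
          ring

/-- `g` is the identity on `(-∞, c]` -/
def Below (c : ℝ) (g : ℝ ≃o ℝ) : Prop := ∀ t, t ≤ c → g t = t

/-- `g` is the identity on `[c, ∞)` -/
def Above (c : ℝ) (g : ℝ ≃o ℝ) : Prop := ∀ t, c ≤ t → g t = t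

theorem Below.inv {c : ℝ} {g : ℝ ≃o ℝ} (h : Below c g) : Below c g⁻¹ := by
  intro t ht
  apply g.injective
  rw [RelIso.apply_inv_self, h t ht]

theorem Above.inv {c : ℝ} {g : ℝ ≃o ℝ} (h : Above c g) : Above c g⁻¹ := by
  intro t ht
  apply g.injective
  rw [RelIso.apply_inv_self, h t ht]

theorem Below.mul {c : ℝ} {g h : ℝ ≃o ℝ} (hg : Below c g) (hh : Below c h) :
    Below c (g * h) := by
  intro t ht
  rw [RelIso.mul_apply, hh t ht, hg t ht]

theorem Below.mono {c c' : ℝ} {g : ℝ ≃o ℝ} (h : Below c g) (hc : c' ≤ c) : Below c' g :=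
  fun t ht => h t (ht.trans hc)

theorem Below.conj {c c' : ℝ} {g k : ℝ ≃o ℝ} (h : Below c g) (hc : k c' = c) :
    Below c' (k⁻¹ * g * k) := by
  intro t ht
  rw [RelIso.mul_apply, RelIso.mul_apply, h (k t) (by rw [← hc]; exact k.le_iff_le.mpr ht),
    RelIso.inv_apply_self]

theorem Above.conj {c c' : ℝ} {g k : ℝ ≃o ℝ} (h : Above c g) (hc : k c' = c) :
    Above c' (k⁻¹ * g * k) := by
  intro t ht
  rw [RelIso.mul_apply, RelIso.mul_apply, h (k t) (by rw [← hc]; exact k.le_iff_le.mpr ht),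
    RelIso.inv_apply_self]

theorem comm_of {c : ℝ} {u g : ℝ ≃o ℝ} (hu : Above c u) (hg : Below c g) : u * g = g * u := by
  ext t
  rw [RelIso.mul_apply, RelIso.mul_apply]
  rcases le_total t c with h | h
  · rw [hg t h, hg (u t)]
    rw [← hu c le_rfl]
    exact u.le_iff_le.mpr h
  · rw [hu t h, hu (g t)]
    rw [← hg c le_rfl]
    exact g.le_iff_le.mpr h

theorem x1_below : Below (1 / 2) x1 := by
  intro t ht
  rw [x1_apply, x0fun_of_nonpos (by linarith)]; ring

theorem agree {t : ℝ} (ht : 7 / 8 ≤ t) : x1 t = x0 t := by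
  rw [x1_apply, x0_apply]
  rcases le_total t 1 with h | h
  · rw [x0fun_c (by linarith) (by linarith), x0fun_c (by linarith) (by linarith)]; ring
  · rw [x0fun_of_one_le (by linarith), x0fun_of_one_le (by linarith)]; ring

theorem x0_34 : x0 (3 / 4) = 1 / 2 := by
  rw [x0_apply, x0fun_b (by norm_num) (by norm_num)]; norm_num

theorem x0_78 : x0 (7 / 8) = 3 / 4 := by
  rw [x0_apply, x0fun_c (by norm_num) (by norm_num)]; norm_num

theorem x0_1516 : x0 (15 / 16) = 7 / 8 := by
  rw [x0_apply, x0fun_c (by norm_num) (by norm_num)]; norm_num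

theorem x0_12 : x0 (1 / 2) = 1 / 4 := by
  rw [x0_apply, x0fun_a (by norm_num) (by norm_num)]; norm_num

theorem x0_14 : x0 (1 / 4) = 1 / 8 := by
  rw [x0_apply, x0fun_a (by norm_num) (by norm_num)]; norm_num

/-- `x₁ x₀⁻¹` is the identity above `3/4` -/
theorem u_above : Above (3 / 4) (x1 * x0⁻¹) := by
  intro t ht
  rw [RelIso.mul_apply, agree, RelIso.apply_inv_self]
  rw [← x0.le_iff_le, RelIso.apply_inv_self, x0_78]
  exact ht

/-- conjugation by `x₁` and by `x₀` agree on elements supported above `3/4` -/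
theorem conj_eq {g : ℝ ≃o ℝ} (hg : Below (3 / 4) g) : x1⁻¹ * g * x1 = x0⁻¹ * g * x0 := by
  have h := comm_of u_above hg
  have h2 : x1 = (x1 * x0⁻¹) * x0 := by group
  have h3 : (x1 * x0⁻¹)⁻¹ * g * (x1 * x0⁻¹) = g := by
    rw [mul_assoc, ← h, inv_mul_cancel_left]
  calc x1⁻¹ * g * x1 = x0⁻¹ * ((x1 * x0⁻¹)⁻¹ * g * (x1 * x0⁻¹)) * x0 := by group
    _ = _ := by rw [h3]

theorem below_conj {g : ℝ ≃o ℝ} (hg : Below (3 / 4) g) : Below (3 / 4) (x0⁻¹ * g * x0) := by
  have := hg.conj x0_78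
  exact this.mono (by norm_num)

theorem conj_pow_eq {g : ℝ ≃o ℝ} (hg : Below (3 / 4) g) (n : ℕ) :
    (x1 ^ n)⁻¹ * g * x1 ^ n = (x0 ^ n)⁻¹ * g * x0 ^ n := by
  induction n generalizing g with
  | zero => simp
  | succ n ih =>
    have h1 : (x1 ^ (n + 1))⁻¹ * g * x1 ^ (n + 1) = (x1 ^ n)⁻¹ * (x1⁻¹ * g * x1) * x1 ^ n := by
      rw [pow_succ' x1 n]; group
    have h2 : (x0 ^ (n + 1))⁻¹ * g * x0 ^ (n + 1) = (x0 ^ n)⁻¹ * (x0⁻¹ * g * x0) * x0 ^ n := by
      rw [pow_succ' x0 n]; group
    rw [h1, h2, conj_eq hg, ih (below_conj hg)]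

/-- the word `x₀² x₁ (x₀⁻¹ x₁ x₀)⁻¹ x₀⁻²` -/
def wf {G : Type*} [Group G] (a b : G) : G := a * (a * (b * (a⁻¹ * b * a)⁻¹) * a⁻¹) * a⁻¹

theorem f_above : Above (1 / 2) (wf x0 x1) := by
  -- `x₁ x₂⁻¹` is the identity above `7/8`
  have h1 : Above (7 / 8) (x1 * (x0⁻¹ * x1 * x0)⁻¹) := by
    intro t ht
    rw [RelIso.mul_apply]
    set s := (x0⁻¹ * x1 * x0)⁻¹ t with hs
    have hst : (x0⁻¹ * x1 * x0) s = t := by rw [hs]; exact RelIso.apply_inv_self _ t
    have hval : (x0⁻¹ * x1 * x0) (15 / 16) = 7 / 8 := by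
      rw [RelIso.mul_apply, RelIso.mul_apply, x0_1516, agree le_rfl, x0_78, ← x0_78,
        RelIso.inv_apply_self]
    have hs15 : 15 / 16 ≤ s := by
      rw [← (x0⁻¹ * x1 * x0).le_iff_le, hst, hval]
      exact ht
    have h78 : 7 / 8 ≤ x0 s := by
      rw [← x0_1516]; exact x0.le_iff_le.mpr hs15
    rw [RelIso.mul_apply, RelIso.mul_apply, agree h78, RelIso.inv_apply_self] at hst
    rw [agree (by linarith), hst]
  have h2 : Above (1 / 2) (x0 * (x0 * (x1 * (x0⁻¹ * x1 * x0)⁻¹) * x0⁻¹) * x0⁻¹) := by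
    intro t ht
    rw [RelIso.mul_apply, RelIso.mul_apply, RelIso.mul_apply, RelIso.mul_apply, h1,
      RelIso.apply_inv_self, RelIso.apply_inv_self]
    rw [← x0.le_iff_le, RelIso.apply_inv_self, ← x0.le_iff_le, RelIso.apply_inv_self, x0_78,
      x0_34]
    exact ht
  exact h2

theorem f_below : Below (1 / 8) (wf x0 x1) := by
  have h1 : Below (1 / 2) (x1 * (x0⁻¹ * x1 * x0)⁻¹) := by
    apply x1_below.mul
    apply Below.inv
    exact (x1_below.conj x0_34).mono (by norm_num)
  intro t ht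
  unfold wf
  rw [RelIso.mul_apply, RelIso.mul_apply, RelIso.mul_apply, RelIso.mul_apply, h1,
    RelIso.apply_inv_self, RelIso.apply_inv_self]
  rw [← x0.le_iff_le, RelIso.apply_inv_self, ← x0.le_iff_le, RelIso.apply_inv_self, x0_12,
    x0_14]
  exact ht

theorem R1 : x1 * wf x0 x1 = wf x0 x1 * x1 := (comm_of f_above x1_below).symm

theorem R2 {j : ℕ} (hj : 3 ≤ j) : (x1 ^ j)⁻¹ * ((x0 ^ j)⁻¹ * wf x0 x1 * x0 ^ j) * x1 ^ j =
    (x0 ^ j)⁻¹ * ((x0 ^ j)⁻¹ * wf x0 x1 * x0 ^ j) * x0 ^ j := by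
  apply conj_pow_eq
  have h3 : Below (3 / 4) ((x0 ^ 3)⁻¹ * wf x0 x1 * x0 ^ 3) := by
    apply f_below.conj
    rw [pow_succ, pow_two, RelIso.mul_apply, RelIso.mul_apply, x0_34, x0_12, x0_14]
  obtain ⟨m, rfl⟩ := Nat.exists_eq_add_of_le hj
  clear hj
  induction m with
  | zero => exact h3
  | succ m ih =>
    have := below_conj ih
    have h4 : x0⁻¹ * ((x0 ^ (3 + m))⁻¹ * wf x0 x1 * x0 ^ (3 + m)) * x0 =
        (x0 ^ (3 + (m + 1)))⁻¹ * wf x0 x1 * x0 ^ (3 + (m + 1)) := by
      rw [← add_assoc, pow_succ x0 (3 + m)]; group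
    rw [h4] at this
    exact this

theorem R3 : wf x0 x1 ≠ 1 := by
  intro h
  have h1 : x1 = x0⁻¹ * x1 * x0 := by
    have h2 : x1 * (x0⁻¹ * x1 * x0)⁻¹ = x0⁻¹ * (x0⁻¹ * wf x0 x1 * x0) * x0 := by
      unfold wf; group
    rw [h] at h2
    have h3 : x1 * (x0⁻¹ * x1 * x0)⁻¹ = 1 := by rw [h2]; group
    exact mul_inv_eq_one.mp h3
  have h4 : x1 (5 / 8) = 9 / 16 := by
    rw [x1_apply, x0fun_a (by norm_num) (by norm_num)]; norm_num
  have h5 : (x0⁻¹ * x1 * x0) (5 / 8) = 5 / 8 := by
    rw [RelIso.mul_apply, RelIso.mul_apply, x1_below, RelIso.inv_apply_self]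
    rw [← x0_34]
    exact x0.le_iff_le.mpr (by norm_num)
  rw [← h1, h4] at h5
  norm_num at h5

/-! ### Reduced diagrams (reduced pairs of finite rooted binary trees) -/

/-- Finite rooted binary trees. -/
inductive Tree where
  | leaf : Tree
  | node : Tree → Tree → Tree

/-- The addresses of the leaves of a tree, from left to right
(`false` = left child, `true` = right child). -/
def Tree.leaves : Tree → List (List Bool)
  | .leaf => [[]]
  | .node l r => l.leaves.map (List.cons false) ++ r.leaves.map (List.cons true)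

/-- `u` is the address of a vertex of the tree. -/
def Tree.IsVertex : Tree → List Bool → Prop
  | _, [] => True
  | .leaf, _ :: _ => False
  | .node l _, false :: u => l.IsVertex u
  | .node _ r, true :: u => r.IsVertex u

/-- `u` is the address of an inner vertex of the tree (a vertex with two children). -/
def Tree.IsInner : Tree → List Bool → Prop
  | .leaf, _ => False
  | .node _ _, [] => True
  | .node l _, false :: u => l.IsInner u
  | .node _ r, true :: u => r.IsInner u

theorem Tree.isVertex_nil (T : Tree) : T.IsVertex [] := by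
  cases T <;> trivial

theorem Tree.IsInner.isVertex {T : Tree} {u : List Bool} (h : T.IsInner u) : T.IsVertex u := by
  induction T generalizing u with
  | leaf => exact h.elim
  | node l r ihl ihr =>
    match u with
    | [] => trivial
    | false :: u => exact ihl h
    | true :: u => exact ihr h

theorem Tree.IsInner.child {T : Tree} {u : List Bool} (h : T.IsInner u) (b : Bool) :
    T.IsVertex (u ++ [b]) := by
  induction T generalizing u with
  | leaf => exact h.elim
  | node l r ihl ihr =>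
    match u with
    | [] => cases b <;> exact Tree.isVertex_nil _
    | false :: u => exact ihl h
    | true :: u => exact ihr h

theorem Tree.isVertex_of_mem {T : Tree} {u : List Bool} (h : u ∈ T.leaves) : T.IsVertex u := by
  induction T generalizing u with
  | leaf =>
    have : u = [] := by simpa [Tree.leaves] using h
    rw [this]; trivial
  | node l r ihl ihr =>
    simp only [Tree.leaves, List.mem_append, List.mem_map] at h
    rcases h with ⟨v, hv, rfl⟩ | ⟨v, hv, rfl⟩
    · exact ihl hv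
    · exact ihr hv

/-- A diagram is a pair `D = (T₊, T₋)` of trees; `side D false = T₊` and `side D true = T₋`. -/
def side (D : Tree × Tree) (s : Bool) : Tree := if s then D.2 else D.1

/-- `D` is a reduced diagram: a pair of trees with equally many leaves such that for no `i` the
`i`-th and `(i+1)`-st leaves are the two children of a vertex in both trees. -/
def IsReduced (D : Tree × Tree) : Prop :=
  D.1.leaves.length = D.2.leaves.length ∧
    ∀ (i : ℕ) (u v : List Bool),
      ¬ (D.1.leaves[i]? = some (u ++ [false]) ∧ D.1.leaves[i + 1]? = some (u ++ [true]) ∧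
        D.2.leaves[i]? = some (v ++ [false]) ∧ D.2.leaves[i + 1]? = some (v ++ [true]))

/-- The left endpoint of the standard dyadic interval with address `u`. -/
noncomputable def lo : List Bool → ℝ
  | [] => 0
  | false :: u => lo u / 2
  | true :: u => 1 / 2 + lo u / 2

/-- The length of the standard dyadic interval with address `u`. -/
noncomputable def len (u : List Bool) : ℝ := 1 / 2 ^ u.length

/-- The diagram `D` represents `f`: for all `i`, `f` maps the standard dyadic interval of the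
`i`-th leaf of `T₊` linearly onto that of the `i`-th leaf of `T₋`. -/
def Represents (D : Tree × Tree) (f : ℝ → ℝ) : Prop :=
  ∀ (i : ℕ) (u v : List Bool), D.1.leaves[i]? = some u → D.2.leaves[i]? = some v →
    ∀ t : ℝ, 0 ≤ t → t ≤ 1 → f (lo u + t * len u) = lo v + t * len v

/-! ### The core and its semigroup -/

section Core

variable (X : Set (Tree × Tree))

/-- The edges of the disjoint union of the diagrams in `X`, before any identification:
the vertices of the trees `T₊` and `T₋`. -/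
structure PreEdge where
  D : Tree × Tree
  mem : D ∈ X
  s : Bool
  u : List Bool
  vtx : (side D s).IsVertex u

/-- The cells of the disjoint union of the diagrams in `X`: the inner vertices of the trees. -/
structure PreCell where
  D : Tree × Tree
  mem : D ∈ X
  s : Bool
  u : List Bool
  inner : (side D s).IsInner u

variable {X}

/-- the top edge of a cell -/
def PreCell.top (c : PreCell X) : PreEdge X := ⟨c.D, c.mem, c.s, c.u, c.inner.isVertex⟩

/-- the first edge of the bottom path of a cell -/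
def PreCell.left (c : PreCell X) : PreEdge X :=
  ⟨c.D, c.mem, c.s, c.u ++ [false], c.inner.child false⟩

/-- the second edge of the bottom path of a cell -/
def PreCell.right (c : PreCell X) : PreEdge X :=
  ⟨c.D, c.mem, c.s, c.u ++ [true], c.inner.child true⟩

variable (X)

/-- The identifications of edges that give the core. -/
inductive Glue : PreEdge X → PreEdge X → Prop
  | refl (a : PreEdge X) : Glue a a
  | symm {a b : PreEdge X} : Glue a b → Glue b a
  | trans {a b c : PreEdge X} : Glue a b → Glue b c → Glue a c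
  /-- the `i`-th leaf of `T₊` and the `i`-th leaf of `T₋` are the same edge of the diagram -/
  | leaf (a b : PreEdge X) (i : ℕ) : a.D = b.D → a.s = false → b.s = true →
      a.D.1.leaves[i]? = some a.u → b.D.2.leaves[i]? = some b.u → Glue a b
  /-- all top and bottom boundary edges of the diagrams are identified -/
  | root (a b : PreEdge X) : a.u = [] → b.u = [] → Glue a b
  /-- cells sharing their top edge are folded -/
  | foldTopLeft (c d : PreCell X) : Glue c.top d.top → Glue c.left d.left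
  | foldTopRight (c d : PreCell X) : Glue c.top d.top → Glue c.right d.right
  /-- cells sharing their bottom path are folded -/
  | foldBot (c d : PreCell X) : Glue c.left d.left → Glue c.right d.right → Glue c.top d.top

/-- the equivalence relation `Glue` -/
def glueSetoid : Setoid (PreEdge X) := ⟨Glue X, ⟨Glue.refl, Glue.symm, Glue.trans⟩⟩

/-- The set `E` of edges of the core. -/
def CoreEdge : Type := Quotient (glueSetoid X)

/-- the edge of the core given by an edge of a diagram -/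
def cls {X : Set (Tree × Tree)} (a : PreEdge X) : CoreEdge X := Quotient.mk (glueSetoid X) a

/-- The rules `bot(π) → top(π)` of the core rewriting system. -/
def Rule (v w : FreeSemigroup (CoreEdge X)) : Prop :=
  ∃ c : PreCell X, v = FreeSemigroup.of (cls c.left) * FreeSemigroup.of (cls c.right) ∧
    w = FreeSemigroup.of (cls c.top)

/-- The semigroup `S = ⟨E ∣ ab = c for each rule ab → c⟩`. -/
def CoreSemigroup : Type := (conGen (Rule X)).Quotient

instance : Semigroup (CoreSemigroup X) :=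
  inferInstanceAs (Semigroup (conGen (Rule X)).Quotient)

variable {X}

/-- the element of `S` given by an edge of the core -/
def gen (e : CoreEdge X) : CoreSemigroup X := ((FreeSemigroup.of e : FreeSemigroup (CoreEdge X)) :
  (conGen (Rule X)).Quotient)

/-- there is a cell of the core with top edge `e` and bottom path `x, y` -/
def Cell (e x y : CoreEdge X) : Prop :=
  ∃ c : PreCell X, cls c.top = e ∧ cls c.left = x ∧ cls c.right = y

theorem Cell.det {e x y x' y' : CoreEdge X} (h : Cell e x y) (h' : Cell e x' y') :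
    x = x' ∧ y = y' := by
  obtain ⟨c, hc, rfl, rfl⟩ := h
  obtain ⟨d, hd, rfl, rfl⟩ := h'
  have h1 : Glue X c.top d.top := Quotient.exact (s := glueSetoid X) (hc.trans hd.symm)
  exact ⟨Quotient.sound (s := glueSetoid X) (Glue.foldTopLeft c d h1),
    Quotient.sound (s := glueSetoid X) (Glue.foldTopRight c d h1)⟩

theorem Cell.gen {e x y : CoreEdge X} (h : Cell e x y) : gen x * gen y = gen e := by
  obtain ⟨c, rfl, rfl, rfl⟩ := h
  exact (Con.eq _).mpr (ConGen.Rel.of _ _ ⟨c, rfl, rfl⟩)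

/-! ### Subdivisions of `[0,1]` read by the core -/

/-- a list of intervals `[a, b]` labelled by edges of the core -/
abbrev Sub (X : Set (Tree × Tree)) := List (ℝ × ℝ × CoreEdge X)

/-- one interval is halved -/
inductive Exp : Sub X → Sub X → Prop
  | mk (p q : Sub X) (a b : ℝ) (e x y : CoreEdge X) : Cell e x y →
      Exp (p ++ (a, b, e) :: q) (p ++ (a, (a + b) / 2, x) :: ((a + b) / 2, b, y) :: q)

open Relation

theorem Exp.append_left {L L' : Sub X} (p : Sub X) (h : Exp L L') : Exp (p ++ L) (p ++ L') := by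
  obtain ⟨p', q, a, b, e, x, y, hc⟩ := h
  rw [← List.append_assoc, ← List.append_assoc]
  exact Exp.mk _ _ _ _ _ _ _ hc

theorem Exp.append_right {L L' : Sub X} (q : Sub X) (h : Exp L L') : Exp (L ++ q) (L' ++ q) := by
  obtain ⟨p', q', a, b, e, x, y, hc⟩ := h
  rw [List.append_assoc, List.append_assoc]
  exact Exp.mk p' (q' ++ q) _ _ _ _ _ hc

theorem Exp.append_left' {L L' : Sub X} (p : Sub X) (h : ReflTransGen Exp L L') :
    ReflTransGen Exp (p ++ L) (p ++ L') := by
  induction h with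
  | refl => exact ReflTransGen.refl
  | tail _ h ih => exact ih.tail (h.append_left p)

theorem Exp.append_right' {L L' : Sub X} (q : Sub X) (h : ReflTransGen Exp L L') :
    ReflTransGen Exp (L ++ q) (L' ++ q) := by
  induction h with
  | refl => exact ReflTransGen.refl
  | tail _ h ih => exact ih.tail (h.append_right q)

/-- the expansion relation is strongly confluent -/
theorem Exp.diamond {L L₁ L₂ : Sub X} (h₁ : Exp L L₁) (h₂ : Exp L L₂) :
    ∃ L', ReflGen Exp L₁ L' ∧ ReflTransGen Exp L₂ L' := by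
  obtain ⟨p, q, a, b, e, x, y, hc⟩ := h₁
  generalize hL : p ++ (a, b, e) :: q = L at h₂
  obtain ⟨p', q', a', b', e', x', y', hc'⟩ := h₂
  rcases List.append_eq_append_iff.mp hL with ⟨r, hr, hr'⟩ | ⟨r, hr, hr'⟩
  · -- p' = p ++ r
    subst hr
    cases r with
    | nil =>
      simp only [List.nil_append, List.cons.injEq, Prod.mk.injEq] at hr'
      obtain ⟨⟨rfl, rfl, rfl⟩, rfl⟩ := hr'
      obtain ⟨rfl, rfl⟩ := hc.det hc'
      rw [List.append_nil]
      exact ⟨_, ReflGen.refl, ReflTransGen.refl⟩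
    | cons r0 r =>
      simp only [List.cons_append, List.cons.injEq] at hr'
      obtain ⟨rfl, rfl⟩ := hr'
      refine ⟨p ++ (a, (a + b) / 2, x) :: ((a + b) / 2, b, y) :: (r ++
        (a', (a' + b') / 2, x') :: ((a' + b') / 2, b', y') :: q'), ReflGen.single ?_,
        ReflTransGen.single ?_⟩
      · have := Exp.mk (p ++ (a, (a + b) / 2, x) :: ((a + b) / 2, b, y) :: r) q' a' b' e' x' y' hc'
        simpa using this
      · have := Exp.mk p (r ++ (a', (a' + b') / 2, x') :: ((a' + b') / 2, b', y') :: q')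
          a b e x y hc
        simpa using this
  · -- p = p' ++ r
    subst hr
    cases r with
    | nil =>
      simp only [List.nil_append, List.cons.injEq, Prod.mk.injEq] at hr'
      obtain ⟨⟨rfl, rfl, rfl⟩, rfl⟩ := hr'
      obtain ⟨rfl, rfl⟩ := hc.det hc'
      rw [List.append_nil]
      exact ⟨_, ReflGen.refl, ReflTransGen.refl⟩
    | cons r0 r =>
      simp only [List.cons_append, List.cons.injEq] at hr'
      obtain ⟨rfl, rfl⟩ := hr'
      refine ⟨p' ++ (a', (a' + b') / 2, x') :: ((a' + b') / 2, b', y') :: (r ++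
        (a, (a + b) / 2, x) :: ((a + b) / 2, b, y) :: q), ReflGen.single ?_,
        ReflTransGen.single ?_⟩
      · have := Exp.mk p' (r ++ (a, (a + b) / 2, x) :: ((a + b) / 2, b, y) :: q)
          a' b' e' x' y' hc'
        simpa using this
      · have := Exp.mk (p' ++ (a', (a' + b') / 2, x') :: ((a' + b') / 2, b', y') :: r) q
          a b e x y hc
        simpa using this

theorem Exp.join {L L₁ L₂ : Sub X} (h₁ : ReflTransGen Exp L L₁) (h₂ : ReflTransGen Exp L L₂) :
    ∃ L', ReflTransGen Exp L₁ L' ∧ ReflTransGen Exp L₂ L' :=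
  church_rosser (fun _ _ _ h h' => h.diamond h') h₁ h₂

/-- subdivisions of `[0,1]` read by the core -/
def Acc (ρ : CoreEdge X) (L : Sub X) : Prop := ReflTransGen Exp [(0, 1, ρ)] L

/-- all intervals are nondegenerate -/
def NonDeg (L : Sub X) : Prop := ∀ p ∈ L, p.1 < p.2.1

/-- `s` is not an interior point of an interval of `L` -/
def NI (s : ℝ) (L : Sub X) : Prop := ∀ p ∈ L, ¬ (p.1 < s ∧ s < p.2.1)

def Sorted (L : Sub X) : Prop := L.Pairwise fun p q => p.2.1 ≤ q.1

def Cover (L : Sub X) : Prop :=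
  (∀ x : ℝ, 0 ≤ x → x < 1 → ∃ p ∈ L, p.1 ≤ x ∧ x < p.2.1) ∧
    (∀ x : ℝ, 0 < x → x ≤ 1 → ∃ p ∈ L, p.1 < x ∧ x ≤ p.2.1)

theorem Exp.nonDeg {L L' : Sub X} (h : Exp L L') (hL : NonDeg L) : NonDeg L' := by
  obtain ⟨p, q, a, b, e, x, y, hc⟩ := h
  have hab : a < b := hL (a, b, e) (by simp)
  intro r hr
  simp only [List.mem_append, List.mem_cons] at hr
  rcases hr with hr | rfl | rfl | hr
  · exact hL r (by simp [hr])
  · change a < (a + b) / 2; linarith
  · change (a + b) / 2 < b; linarith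
  · exact hL r (by simp [hr])

theorem Exp.ni {L L' : Sub X} (h : Exp L L') (hd : NonDeg L) {s : ℝ} (hL : NI s L) :
    NI s L' := by
  obtain ⟨p, q, a, b, e, x, y, hc⟩ := h
  have hab : a < b := hd (a, b, e) (by simp)
  have hs : ¬ (a < s ∧ s < b) := hL (a, b, e) (by simp)
  intro r hr
  simp only [List.mem_append, List.mem_cons] at hr
  rcases hr with hr | rfl | rfl | hr
  · exact hL r (by simp [hr])
  · rintro ⟨h1, h2⟩
    change a < s at h1
    change s < (a + b) / 2 at h2
    exact hs ⟨h1, by linarith⟩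
  · rintro ⟨h1, h2⟩
    change (a + b) / 2 < s at h1
    change s < b at h2
    exact hs ⟨by linarith, h2⟩
  · exact hL r (by simp [hr])

theorem Exp.sorted {L L' : Sub X} (h : Exp L L') (hd : NonDeg L) (hL : Sorted L) :
    Sorted L' := by
  obtain ⟨p, q, a, b, e, x, y, hc⟩ := h
  have hab : a < b := hd (a, b, e) (by simp)
  unfold Sorted at hL ⊢
  rw [List.pairwise_append] at hL ⊢
  obtain ⟨h1, h2, h3⟩ := hL
  rw [List.pairwise_cons] at h2
  refine ⟨h1, ?_, ?_⟩
  · rw [List.pairwise_cons, List.pairwise_cons]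
    refine ⟨?_, ?_, h2.2⟩
    · intro r hr
      simp only [List.mem_cons] at hr
      rcases hr with rfl | hr
      · exact le_rfl
      · have := h2.1 r hr
        change b ≤ r.1 at this
        change (a + b) / 2 ≤ r.1
        linarith
    · intro r hr
      exact h2.1 r hr
  · intro r hr t ht
    simp only [List.mem_cons] at ht
    have h4 := h3 r hr (a, b, e) (by simp)
    rcases ht with rfl | rfl | ht
    · exact h4
    · change r.2.1 ≤ a at h4
      change r.2.1 ≤ (a + b) / 2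
      linarith
    · exact h3 r hr t (by simp [ht])

theorem Exp.cover {L L' : Sub X} (h : Exp L L') (hL : Cover L) : Cover L' := by
  obtain ⟨p, q, a, b, e, x, y, hc⟩ := h
  refine ⟨fun z hz0 hz1 => ?_, fun z hz0 hz1 => ?_⟩
  · obtain ⟨r, hr, h1, h2⟩ := hL.1 z hz0 hz1
    simp only [List.mem_append, List.mem_cons] at hr
    rcases hr with hr | rfl | hr
    · exact ⟨r, by simp [hr], h1, h2⟩
    · rcases lt_or_ge z ((a + b) / 2) with h3 | h3
      · exact ⟨(a, (a + b) / 2, x), by simp, h1, h3⟩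
      · exact ⟨((a + b) / 2, b, y), by simp, h3, h2⟩
    · exact ⟨r, by simp [hr], h1, h2⟩
  · obtain ⟨r, hr, h1, h2⟩ := hL.2 z hz0 hz1
    simp only [List.mem_append, List.mem_cons] at hr
    rcases hr with hr | rfl | hr
    · exact ⟨r, by simp [hr], h1, h2⟩
    · rcases le_or_gt z ((a + b) / 2) with h3 | h3
      · exact ⟨(a, (a + b) / 2, x), by simp, h1, h3⟩
      · exact ⟨((a + b) / 2, b, y), by simp, h3, h2⟩
    · exact ⟨r, by simp [hr], h1, h2⟩

/-- the product of the labels of the intervals between `s` and `s'` -/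
noncomputable def wd (s s' : ℝ) (L : Sub X) : WithOne (CoreSemigroup X) :=
  (L.map fun p => if s ≤ p.1 ∧ p.2.1 ≤ s' then ((gen p.2.2 : CoreSemigroup X) :
    WithOne (CoreSemigroup X)) else 1).prod

theorem Exp.wd_eq {L L' : Sub X} (h : Exp L L') (hd : NonDeg L) {s s' : ℝ} (hs : NI s L)
    (hs' : NI s' L) : wd s s' L = wd s s' L' := by
  obtain ⟨p, q, a, b, e, x, y, hc⟩ := h
  have hab : a < b := hd (a, b, e) (by simp)
  have h1 : ¬ (a < s ∧ s < b) := hs (a, b, e) (by simp)
  have h2 : ¬ (a < s' ∧ s' < b) := hs' (a, b, e) (by simp)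
  unfold wd
  simp only [List.map_append, List.map_cons, List.prod_append, List.prod_cons]
  congr 1
  rw [← mul_assoc]
  congr 1
  by_cases h3 : s ≤ a ∧ b ≤ s'
  · rw [if_pos h3, if_pos ⟨h3.1, by linarith [h3.2]⟩, if_pos ⟨by linarith [h3.1], h3.2⟩,
      ← WithOne.coe_mul, hc.gen]
  · rw [if_neg h3, if_neg, if_neg, one_mul]
    · rintro ⟨h4, h5⟩
      apply h3
      refine ⟨?_, h5⟩
      by_contra h6
      exact h1 ⟨by linarith, by linarith⟩
    · rintro ⟨h4, h5⟩
      apply h3
      refine ⟨h4, ?_⟩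
      by_contra h6
      exact h2 ⟨by linarith, by linarith⟩

theorem rtg_inv {L L' : Sub X} (h : ReflTransGen Exp L L') (hd : NonDeg L) {s s' : ℝ}
    (hs : NI s L) (hs' : NI s' L) :
    NonDeg L' ∧ NI s L' ∧ NI s' L' ∧ wd s s' L = wd s s' L' := by
  induction h with
  | refl => exact ⟨hd, hs, hs', rfl⟩
  | tail _ h ih =>
    obtain ⟨h1, h2, h3, h4⟩ := ih
    exact ⟨h.nonDeg h1, h.ni h1 h2, h.ni h1 h3, h4.trans (h.wd_eq h1 h2 h3)⟩

theorem Acc.inv {ρ : CoreEdge X} {L : Sub X} (h : Acc ρ L) : NonDeg L ∧ Sorted L ∧ Cover L := by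
  induction h with
  | refl =>
    refine ⟨?_, List.pairwise_singleton _ _, ?_, ?_⟩
    · intro p hp
      rw [List.mem_singleton] at hp
      subst hp
      exact zero_lt_one
    · intro x h0 h1
      exact ⟨_, List.mem_singleton_self _, h0, h1⟩
    · intro x h0 h1
      exact ⟨_, List.mem_singleton_self _, h0, h1⟩
  | tail _ h ih => exact ⟨h.nonDeg ih.1, h.sorted ih.1 ih.2.1, h.cover ih.2.2⟩

theorem wd_eq_one {s t : ℝ} {L : Sub X} (hd : NonDeg L) (h : ∀ p ∈ L, t ≤ p.1) :
    wd s t L = 1 := by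
  unfold wd
  apply List.prod_eq_one
  intro x hx
  rw [List.mem_map] at hx
  obtain ⟨p, hp, rfl⟩ := hx
  rw [if_neg]
  rintro ⟨h1, h2⟩
  have := hd p hp
  have := h p hp
  linarith

theorem wd_congr {s t r : ℝ} {L : Sub X} (hst : s ≤ t) (h : ∀ p ∈ L, t ≤ p.1) :
    wd t r L = wd s r L := by
  unfold wd
  congr 1
  apply List.map_congr_left
  intro p hp
  have h1 := h p hp
  by_cases h2 : p.2.1 ≤ r
  · rw [if_pos ⟨h1, h2⟩, if_pos ⟨hst.trans h1, h2⟩]
  · rw [if_neg (fun h => h2 h.2), if_neg (fun h => h2 h.2)]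

theorem wd_mul {s t r : ℝ} (hst : s < t) (htr : t < r) {L : Sub X} (hd : NonDeg L)
    (hL : Sorted L) (ht : NI t L) : wd s t L * wd t r L = wd s r L := by
  induction L with
  | nil => simp [wd]
  | cons p L ih =>
    have hd' : NonDeg L := fun q hq => hd q (List.mem_cons_of_mem _ hq)
    have ht' : NI t L := fun q hq => ht q (List.mem_cons_of_mem _ hq)
    unfold Sorted at hL
    rw [List.pairwise_cons] at hL
    have hp := hd p List.mem_cons_self
    have htp := ht p List.mem_cons_self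
    rcases le_or_gt p.2.1 t with h | h
    · have ih' := ih hd' hL.2 ht'
      have e1 : wd t r (p :: L) = wd t r L := by
        unfold wd
        rw [List.map_cons, List.prod_cons, if_neg, one_mul]
        rintro ⟨h1, -⟩
        linarith
      have e2 : wd s t (p :: L) = (if s ≤ p.1 then ((gen p.2.2 : CoreSemigroup X) :
          WithOne (CoreSemigroup X)) else 1) * wd s t L := by
        unfold wd
        rw [List.map_cons, List.prod_cons]
        congr 1
        by_cases h1 : s ≤ p.1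
        · rw [if_pos h1, if_pos ⟨h1, h⟩]
        · rw [if_neg h1, if_neg (fun h => h1 h.1)]
      have e3 : wd s r (p :: L) = (if s ≤ p.1 then ((gen p.2.2 : CoreSemigroup X) :
          WithOne (CoreSemigroup X)) else 1) * wd s r L := by
        unfold wd
        rw [List.map_cons, List.prod_cons]
        congr 1
        by_cases h1 : s ≤ p.1
        · rw [if_pos h1, if_pos ⟨h1, h.trans htr.le⟩]
        · rw [if_neg h1, if_neg (fun h => h1 h.1)]
      rw [e1, e2, e3, mul_assoc, ih']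
    · have h1 : t ≤ p.1 := by
        by_contra h2
        exact htp ⟨by linarith, h⟩
      have hall : ∀ q ∈ p :: L, t ≤ q.1 := by
        intro q hq
        rw [List.mem_cons] at hq
        rcases hq with rfl | hq
        · exact h1
        · have := hL.1 q hq
          linarith
      rw [wd_eq_one hd hall, one_mul, wd_congr hst.le hall]

theorem withOne_mul_eq_one {S : Type*} [Semigroup S] {x y : WithOne S} (h : x * y = 1) :
    x = 1 ∧ y = 1 := by
  induction x using WithOne.recOneCoe with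
  | one => exact ⟨rfl, by rwa [one_mul] at h⟩
  | coe a =>
    induction y using WithOne.recOneCoe with
    | one => exact ⟨by rwa [mul_one] at h, rfl⟩
    | coe b =>
      rw [← WithOne.coe_mul] at h
      exact (WithOne.coe_ne_one h).elim

theorem prod_ne_one {S : Type*} [Semigroup S] (l : List (WithOne S)) {x : WithOne S}
    (hx : x ∈ l) (h : x ≠ 1) : l.prod ≠ 1 := by
  induction l with
  | nil => simp at hx
  | cons y l ih =>
    rw [List.prod_cons]
    intro h1
    obtain ⟨h2, h3⟩ := withOne_mul_eq_one h1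
    rw [List.mem_cons] at hx
    rcases hx with rfl | hx
    · exact h h2
    · exact ih hx h3

theorem wd_ne_one {ρ : CoreEdge X} {L : Sub X} (hL : Acc ρ L) {s t : ℝ} (hs : 0 ≤ s)
    (hst : s < t) (ht : t ≤ 1) (h1 : NI s L) (h2 : NI t L) : wd s t L ≠ 1 := by
  obtain ⟨hd, -, hc⟩ := hL.inv
  obtain ⟨p, hp, h3, h4⟩ := hc.1 s hs (by linarith)
  have h5 : p.1 = s := by
    by_contra h6
    exact h1 p hp ⟨lt_of_le_of_ne h3 h6, h4⟩
  have h6 : p.2.1 ≤ t := by
    by_contra h7
    exact h2 p hp ⟨by linarith, by linarith⟩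
  unfold wd
  refine prod_ne_one _ (List.mem_map.mpr ⟨p, hp, rfl⟩) ?_
  rw [if_pos ⟨h5.ge, h6⟩]
  exact WithOne.coe_ne_one

/-! ### The action of the elements of the group -/

/-- the image of a subdivision -/
def mapL (h : ℝ ≃o ℝ) (L : Sub X) : Sub X := L.map fun p => (h p.1, h p.2.1, p.2.2)

/-- `h` is affine on `[a, b]` -/
def Aff (h : ℝ ≃o ℝ) (a b : ℝ) : Prop :=
  ∀ t : ℝ, 0 ≤ t → t ≤ 1 → h (a + t * (b - a)) = h a + t * (h b - h a)

def AffL (h : ℝ ≃o ℝ) (L : Sub X) : Prop := ∀ p ∈ L, Aff h p.1 p.2.1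

theorem Aff.mid {h : ℝ ≃o ℝ} {a b : ℝ} (H : Aff h a b) : h ((a + b) / 2) = (h a + h b) / 2 := by
  have := H (1 / 2) (by norm_num) (by norm_num)
  rw [show a + 1 / 2 * (b - a) = (a + b) / 2 by ring] at this
  rw [this]; ring

theorem Aff.left {h : ℝ ≃o ℝ} {a b : ℝ} (H : Aff h a b) : Aff h a ((a + b) / 2) := by
  intro t h0 h1
  rw [H.mid, show a + t * ((a + b) / 2 - a) = a + (t / 2) * (b - a) by ring,
    H (t / 2) (by linarith) (by linarith)]
  ring

theorem Aff.right {h : ℝ ≃o ℝ} {a b : ℝ} (H : Aff h a b) : Aff h ((a + b) / 2) b := by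
  intro t h0 h1
  rw [H.mid, show (a + b) / 2 + t * (b - (a + b) / 2) = a + ((1 + t) / 2) * (b - a) by ring,
    H ((1 + t) / 2) (by linarith) (by linarith)]
  ring

theorem Aff.inv {h : ℝ ≃o ℝ} {a b : ℝ} (H : Aff h a b) : Aff h⁻¹ (h a) (h b) := by
  intro t h0 h1
  rw [← H t h0 h1, RelIso.inv_apply_self, RelIso.inv_apply_self, RelIso.inv_apply_self]

theorem Aff.comp {g h : ℝ ≃o ℝ} {a b : ℝ} (H : Aff h a b) (G : Aff g (h a) (h b)) :
    Aff (g * h) a b := by
  intro t h0 h1
  rw [RelIso.mul_apply, RelIso.mul_apply, RelIso.mul_apply, H t h0 h1, G t h0 h1]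

theorem Exp.map {h : ℝ ≃o ℝ} {L L' : Sub X} (H : Exp L L') (hL : AffL h L) :
    Exp (mapL h L) (mapL h L') ∧ AffL h L' := by
  obtain ⟨p, q, a, b, e, x, y, hc⟩ := H
  have hab : Aff h a b := hL (a, b, e) (by simp)
  constructor
  · unfold mapL
    simp only [List.map_append, List.map_cons]
    rw [hab.mid]
    exact Exp.mk _ _ _ _ _ _ _ hc
  · intro r hr
    simp only [List.mem_append, List.mem_cons] at hr
    rcases hr with hr | rfl | rfl | hr
    · exact hL r (by simp [hr])
    · exact hab.left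
    · exact hab.right
    · exact hL r (by simp [hr])

theorem rtg_map {h : ℝ ≃o ℝ} {L L' : Sub X} (H : ReflTransGen Exp L L') (hL : AffL h L) :
    ReflTransGen Exp (mapL h L) (mapL h L') ∧ AffL h L' := by
  induction H with
  | refl => exact ⟨ReflTransGen.refl, hL⟩
  | tail _ H ih =>
    have := H.map ih.2
    exact ⟨ih.1.tail this.1, this.2⟩

theorem mapL_inv (h : ℝ ≃o ℝ) (L : Sub X) : mapL h⁻¹ (mapL h L) = L := by
  unfold mapL
  rw [List.map_map]
  conv_rhs => rw [← List.map_id L]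
  apply List.map_congr_left
  intro p _
  simp only [Function.comp_apply, RelIso.inv_apply_self, id_eq]

theorem mapL_mul (g h : ℝ ≃o ℝ) (L : Sub X) : mapL (g * h) L = mapL g (mapL h L) := by
  unfold mapL
  rw [List.map_map]
  rfl

theorem mapL_inv' (h : ℝ ≃o ℝ) (L : Sub X) : mapL h (mapL h⁻¹ L) = L := by
  have := mapL_inv h⁻¹ L
  rwa [inv_inv] at this

/-- the element `h` is accepted by the core -/
def Accepted (ρ : CoreEdge X) (h : ℝ ≃o ℝ) : Prop :=
  ∃ L : Sub X, Acc ρ L ∧ Acc ρ (mapL h L) ∧ AffL h L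

variable {ρ : CoreEdge X}

theorem Accepted.one : Accepted ρ 1 := by
  refine ⟨[(0, 1, ρ)], ReflTransGen.refl, ReflTransGen.refl, ?_⟩
  intro p _ t _ _
  rfl

theorem Accepted.inv {h : ℝ ≃o ℝ} (H : Accepted ρ h) : Accepted ρ h⁻¹ := by
  obtain ⟨L, h1, h2, h3⟩ := H
  refine ⟨mapL h L, h2, by rwa [mapL_inv], ?_⟩
  intro p hp
  unfold mapL at hp
  rw [List.mem_map] at hp
  obtain ⟨r, hr, rfl⟩ := hp
  exact (h3 r hr).inv

theorem Accepted.mul {g h : ℝ ≃o ℝ} (G : Accepted ρ g) (H : Accepted ρ h) :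
    Accepted ρ (g * h) := by
  obtain ⟨L₁, h1, h2, h3⟩ := H
  obtain ⟨L₂, g1, g2, g3⟩ := G
  obtain ⟨L₃, j1, j2⟩ := Exp.join h2 g1
  have hinv : AffL h⁻¹ (mapL h L₁) := by
    intro p hp
    unfold mapL at hp
    rw [List.mem_map] at hp
    obtain ⟨r, hr, rfl⟩ := hp
    exact (h3 r hr).inv
  have k1 := rtg_map j1 hinv
  rw [mapL_inv] at k1
  have k2 := rtg_map j2 g3
  have k3 := rtg_map k1.1 h3
  refine ⟨mapL h⁻¹ L₃, h1.trans k1.1, ?_, ?_⟩
  · rw [mapL_mul, mapL_inv']
    exact g2.trans k2.1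
  · intro p hp
    refine (k3.2 p hp).comp ?_
    apply k2.2 (h p.1, h p.2.1, p.2.2)
    have : (h p.1, h p.2.1, p.2.2) ∈ mapL h (mapL h⁻¹ L₃) := List.mem_map.mpr ⟨p, hp, rfl⟩
    rwa [mapL_inv'] at this

theorem Accepted.pow {h : ℝ ≃o ℝ} (H : Accepted ρ h) (n : ℕ) : Accepted ρ (h ^ n) := by
  induction n with
  | zero => rw [pow_zero]; exact Accepted.one
  | succ n ih => rw [pow_succ]; exact ih.mul H

/-- the value of the interval `[s, s']` in the semigroup -/
def W (ρ : CoreEdge X) (s s' : ℝ) (v : WithOne (CoreSemigroup X)) : Prop :=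
  ∃ L, Acc ρ L ∧ NI s L ∧ NI s' L ∧ wd s s' L = v

def Cut (ρ : CoreEdge X) (s : ℝ) : Prop := ∃ L, Acc ρ L ∧ NI s L

theorem W.unique {s s' : ℝ} {v v' : WithOne (CoreSemigroup X)} (h : W ρ s s' v)
    (h' : W ρ s s' v') : v = v' := by
  obtain ⟨L, h1, h2, h3, rfl⟩ := h
  obtain ⟨L', h1', h2', h3', rfl⟩ := h'
  obtain ⟨M, j1, j2⟩ := Exp.join h1 h1'
  rw [(rtg_inv j1 h1.inv.1 h2 h3).2.2.2, (rtg_inv j2 h1'.inv.1 h2' h3').2.2.2]

theorem Cut.exists_W {s s' : ℝ} (h : Cut ρ s) (h' : Cut ρ s') : ∃ v, W ρ s s' v := by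
  obtain ⟨L, h1, h2⟩ := h
  obtain ⟨L', h1', h2'⟩ := h'
  obtain ⟨M, j1, j2⟩ := Exp.join h1 h1'
  exact ⟨_, M, h1.trans j1, (rtg_inv j1 h1.inv.1 h2 h2).2.1,
    (rtg_inv j2 h1'.inv.1 h2' h2').2.1, rfl⟩

theorem NI.map {h : ℝ ≃o ℝ} {s : ℝ} {L : Sub X} (H : NI s L) : NI (h s) (mapL h L) := by
  intro p hp
  unfold mapL at hp
  rw [List.mem_map] at hp
  obtain ⟨r, hr, rfl⟩ := hp
  rintro ⟨h1, h2⟩
  exact H r hr ⟨h.lt_iff_lt.mp h1, h.lt_iff_lt.mp h2⟩

theorem wd_map (h : ℝ ≃o ℝ) (s s' : ℝ) (L : Sub X) : wd (h s) (h s') (mapL h L) = wd s s' L := by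
  unfold wd mapL
  rw [List.map_map]
  congr 1
  apply List.map_congr_left
  intro p _
  simp only [Function.comp_apply, OrderIso.le_iff_le]

theorem W.map {h : ℝ ≃o ℝ} (H : Accepted ρ h) {s s' : ℝ} {v : WithOne (CoreSemigroup X)}
    (hW : W ρ s s' v) : W ρ (h s) (h s') v := by
  obtain ⟨L, h1, h2, h3, rfl⟩ := hW
  obtain ⟨L', g1, g2, g3⟩ := H
  obtain ⟨M, j1, j2⟩ := Exp.join h1 g1
  obtain ⟨-, i2, i3, i4⟩ := rtg_inv j1 h1.inv.1 h2 h3
  have k := rtg_map j2 g3
  refine ⟨mapL h M, g2.trans k.1, i2.map, i3.map, ?_⟩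
  rw [wd_map, i4]

theorem Cut.map {h : ℝ ≃o ℝ} (H : Accepted ρ h) {s : ℝ} (hs : Cut ρ s) : Cut ρ (h s) := by
  obtain ⟨v, hv⟩ := hs.exists_W hs
  obtain ⟨L, h1, h2, -⟩ := hv.map H
  exact ⟨L, h1, h2⟩

theorem W.mul {s t r : ℝ} (hst : s < t) (htr : t < r) {v w : WithOne (CoreSemigroup X)}
    (h : W ρ s t v) (h' : W ρ t r w) : W ρ s r (v * w) := by
  obtain ⟨L, h1, h2, h3, rfl⟩ := h
  obtain ⟨L', h1', h2', h3', rfl⟩ := h'
  obtain ⟨M, j1, j2⟩ := Exp.join h1 h1'
  obtain ⟨i1, i2, i3, i4⟩ := rtg_inv j1 h1.inv.1 h2 h3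
  obtain ⟨-, i2', i3', i4'⟩ := rtg_inv j2 h1'.inv.1 h2' h3'
  have hM : Acc ρ M := h1.trans j1
  refine ⟨M, hM, i2, i3', ?_⟩
  rw [i4, i4', wd_mul hst htr i1 hM.inv.2.1 i3]

theorem idem_of_W {s t r : ℝ} (hs : 0 ≤ s) (hst : s < t) (htr : t < r) (ht : t ≤ 1)
    {v : WithOne (CoreSemigroup X)}
    (h1 : W ρ s t v) (h2 : W ρ t r v) (h3 : W ρ s r v) :
    ∃ e : CoreSemigroup X, e * e = e := by
  have h4 : v * v = v := (h1.mul hst htr h2).unique h3
  have h5 : v ≠ 1 := by
    obtain ⟨L, g1, g2, g3, rfl⟩ := h1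
    exact wd_ne_one g1 hs hst ht g2 g3
  induction v using WithOne.recOneCoe with
  | one => exact (h5 rfl).elim
  | coe e =>
    refine ⟨e, ?_⟩
    rw [← WithOne.coe_mul] at h4
    exact WithOne.coe_injective h4

/-- the final step -/
theorem idem_of_points {h k : ℝ ≃o ℝ} (H : Accepted ρ h) (K : Accepted ρ k) {q : ℝ}
    (hq : Cut ρ q) (h0 : 0 ≤ q) (h0' : 0 ≤ h (h q)) (h1' : h q ≤ 1)
    (hne : h q ≠ q) (hk : k q = q) (hk' : k (h q) = h (h q)) :
    ∃ e : CoreSemigroup X, e * e = e := by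
  have hq' : Cut ρ (h q) := hq.map H
  rcases lt_or_gt_of_ne hne with hlt | hlt
  · obtain ⟨v, hv⟩ := hq'.exists_W hq
    have hv1 := hv.map H
    have hv2 := hv.map K
    rw [hk, hk'] at hv2
    exact idem_of_W h0' (h.lt_iff_lt.mpr hlt) hlt h1' hv1 hv hv2
  · obtain ⟨v, hv⟩ := hq.exists_W hq'
    have hv1 := hv.map H
    have hv2 := hv.map K
    rw [hk, hk'] at hv2
    exact idem_of_W h0 hlt (h.lt_iff_lt.mpr hlt) h1' hv hv1 hv2

/-! ### The generators are accepted -/

/-- the subdivision of `[a, b]` given by a tree -/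
noncomputable def pieces (T : Tree) (a b : ℝ) (lab : List Bool → CoreEdge X) : Sub X :=
  T.leaves.map fun u => (a + (b - a) * lo u, a + (b - a) * (lo u + len u), lab u)

theorem len_cons (c : Bool) (u : List Bool) : len (c :: u) = len u / 2 := by
  unfold len
  rw [List.length_cons, pow_succ]
  field_simp

theorem pieces_node (l r : Tree) (a b : ℝ) (lab : List Bool → CoreEdge X) :
    pieces (.node l r) a b lab =
      pieces l a ((a + b) / 2) (fun u => lab (false :: u)) ++
        pieces r ((a + b) / 2) b (fun u => lab (true :: u)) := by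
  unfold pieces
  rw [Tree.leaves, List.map_append, List.map_map, List.map_map]
  congr 1
  · apply List.map_congr_left
    intro u _
    simp only [Function.comp_apply, lo, len_cons, Prod.mk.injEq, and_true]
    constructor <;> ring
  · apply List.map_congr_left
    intro u _
    simp only [Function.comp_apply, lo, len_cons, Prod.mk.injEq, and_true]
    constructor <;> ring

theorem rtg_pieces (T : Tree) (a b : ℝ) (lab : List Bool → CoreEdge X)
    (h : ∀ u, T.IsInner u → Cell (lab u) (lab (u ++ [false])) (lab (u ++ [true]))) :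
    ReflTransGen Exp [(a, b, lab [])] (pieces T a b lab) := by
  induction T generalizing a b lab with
  | leaf =>
    have : pieces .leaf a b lab = [(a, b, lab [])] := by
      unfold pieces
      simp only [Tree.leaves, List.map_cons, List.map_nil, lo, len, List.length_nil, pow_zero]
      norm_num
    rw [this]
  | node l r ihl ihr =>
    rw [pieces_node]
    have h0 : Exp [(a, b, lab [])]
        ([(a, (a + b) / 2, lab [false])] ++ [((a + b) / 2, b, lab [true])]) :=
      Exp.mk [] [] a b _ _ _ (h [] trivial)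
    have h1 := ihl a ((a + b) / 2) (fun u => lab (false :: u)) (fun u hu => h (false :: u) hu)
    have h2 := ihr ((a + b) / 2) b (fun u => lab (true :: u)) (fun u hu => h (true :: u) hu)
    exact ((ReflTransGen.single h0).trans (Exp.append_right' _ h1)).trans
      (Exp.append_left' _ h2)

open Classical in
/-- the labels of the vertices of the trees -/
noncomputable def lab (ρ : CoreEdge X) (D : Tree × Tree) (hD : D ∈ X) (s : Bool)
    (u : List Bool) : CoreEdge X :=
  if h : (side D s).IsVertex u then cls ⟨D, hD, s, u, h⟩ else ρ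

theorem lab_eq {D : Tree × Tree} (hD : D ∈ X) {s : Bool} {u : List Bool}
    (h : (side D s).IsVertex u) : lab ρ D hD s u = cls ⟨D, hD, s, u, h⟩ := dif_pos h

theorem lab_cell {D : Tree × Tree} (hD : D ∈ X) {s : Bool} {u : List Bool}
    (h : (side D s).IsInner u) :
    Cell (lab ρ D hD s u) (lab ρ D hD s (u ++ [false])) (lab ρ D hD s (u ++ [true])) := by
  refine ⟨⟨D, hD, s, u, h⟩, ?_, ?_, ?_⟩
  · rw [lab_eq hD h.isVertex]; rfl
  · rw [lab_eq hD (h.child false)]; rfl
  · rw [lab_eq hD (h.child true)]; rfl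

/-- `ρ` is the edge obtained from all the boundary edges -/
def IsRoot (ρ : CoreEdge X) : Prop := ∀ a : PreEdge X, a.u = [] → cls a = ρ

theorem acc_side (hρ : IsRoot ρ) {D : Tree × Tree} (hD : D ∈ X) (s : Bool) :
    Acc ρ (pieces (side D s) 0 1 (lab ρ D hD s)) := by
  have h := rtg_pieces (side D s) 0 1 (lab ρ D hD s) (fun u hu => lab_cell hD hu)
  rw [lab_eq hD (Tree.isVertex_nil _), hρ _ rfl] at h
  exact h

theorem accepted_of_represents (hρ : IsRoot ρ) {D : Tree × Tree} (hD : D ∈ X)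
    (hr : D.1.leaves.length = D.2.leaves.length) {f : ℝ ≃o ℝ} (hf : Represents D f) :
    Accepted ρ f := by
  have hpair : ∀ (i : ℕ) (u : List Bool), D.1.leaves[i]? = some u →
      ∃ v : List Bool, D.2.leaves[i]? = some v := by
    intro i u hu
    have hi : i < D.1.leaves.length := by
      rw [List.getElem?_eq_some_iff] at hu
      exact hu.1
    rw [hr] at hi
    exact ⟨D.2.leaves[i], List.getElem?_eq_getElem hi⟩
  have hval : ∀ (i : ℕ) (u v : List Bool), D.1.leaves[i]? = some u →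
      D.2.leaves[i]? = some v → f (lo u) = lo v ∧ f (lo u + len u) = lo v + len v := by
    intro i u v hu hv
    have h0 := hf i u v hu hv 0 le_rfl zero_le_one
    have h1 := hf i u v hu hv 1 zero_le_one le_rfl
    simp only [zero_mul, add_zero, one_mul] at h0 h1
    exact ⟨h0, h1⟩
  refine ⟨pieces (side D false) 0 1 (lab ρ D hD false), acc_side hρ hD false, ?_, ?_⟩
  · have heq : mapL f (pieces (side D false) 0 1 (lab ρ D hD false)) =
        pieces (side D true) 0 1 (lab ρ D hD true) := by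
      unfold mapL pieces
      rw [List.map_map]
      apply List.ext_getElem?
      intro i
      rw [List.getElem?_map, List.getElem?_map]
      change Option.map _ (D.1.leaves[i]?) = Option.map _ (D.2.leaves[i]?)
      cases hu : D.1.leaves[i]? with
      | none =>
        have : D.2.leaves[i]? = none := by
          rw [List.getElem?_eq_none_iff] at hu ⊢
          omega
        rw [this]
        rfl
      | some u =>
        obtain ⟨v, hv⟩ := hpair i u hu
        rw [hv]
        obtain ⟨h1, h2⟩ := hval i u v hu hv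
        have hlab : lab ρ D hD false u = lab ρ D hD true v := by
          have hu' : (side D false).IsVertex u :=
            Tree.isVertex_of_mem (List.mem_of_getElem? hu)
          have hv' : (side D true).IsVertex v :=
            Tree.isVertex_of_mem (List.mem_of_getElem? hv)
          rw [lab_eq hD hu', lab_eq hD hv']
          exact Quotient.sound (s := glueSetoid X)
            (Glue.leaf ⟨D, hD, false, u, hu'⟩ ⟨D, hD, true, v, hv'⟩ i rfl rfl rfl hu hv)
        simp only [Option.map_some, Function.comp_apply, sub_zero, one_mul, zero_add, h1, h2,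
          hlab]
    rw [heq]
    exact acc_side hρ hD true
  · intro p hp
    unfold pieces at hp
    rw [List.mem_map] at hp
    obtain ⟨u, hu, rfl⟩ := hp
    obtain ⟨i, hi⟩ := List.mem_iff_getElem?.mp hu
    obtain ⟨v, hv⟩ := hpair i u hi
    obtain ⟨h1, h2⟩ := hval i u v hi hv
    intro t ht0 ht1
    have h3 := hf i u v hi hv t ht0 ht1
    simp only [sub_zero, one_mul, zero_add]
    rw [show lo u + t * (lo u + len u - lo u) = lo u + t * len u by ring, h3, h1, h2]
    ring

/-! ### Germs and supports -/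

/-- `q` is the supremum of the support of `g` -/
def SupSupp (g : ℝ ≃o ℝ) (q : ℝ) : Prop := IsLUB {x | g x ≠ x} q

theorem SupSupp.conj {g k : ℝ ≃o ℝ} {q : ℝ} (h : SupSupp g q) :
    SupSupp (k⁻¹ * g * k) (k⁻¹ q) := by
  constructor
  · intro x hx
    have h1 : g (k x) ≠ k x := by
      intro h2
      apply hx
      rw [RelIso.mul_apply, RelIso.mul_apply, h2, RelIso.inv_apply_self]
    have h3 := h.1 h1
    rw [← k.le_iff_le, RelIso.apply_inv_self]
    exact h3
  · intro y hy
    rw [← k.le_iff_le, RelIso.apply_inv_self]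
    apply h.2
    intro x hx
    have h1 : (k⁻¹ : ℝ ≃o ℝ) x ∈ {x | (k⁻¹ * g * k) x ≠ x} := by
      intro h2
      rw [RelIso.mul_apply, RelIso.mul_apply, RelIso.apply_inv_self] at h2
      exact hx ((k⁻¹ : ℝ ≃o ℝ).injective h2)
    have h3 := hy h1
    rw [← k.le_iff_le, RelIso.apply_inv_self] at h3
    exact h3

theorem Accepted.cut {g : ℝ ≃o ℝ} (G : Accepted ρ g) {q : ℝ} (hq : SupSupp g q) : Cut ρ q := by
  obtain ⟨L, h1, -, h3⟩ := G
  refine ⟨L, h1, ?_⟩
  rintro p hp ⟨ha, hb⟩
  have hab := h3 p hp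
  have hfix : ∀ x, q < x → g x = x := by
    intro x hx
    by_contra hne
    exact absurd (hq.1 hne) (not_le.mpr hx)
  set a := p.1 with hadef
  set b := p.2.1 with hbdef
  have hd : 0 < b - a := by linarith
  -- the point `(q + b) / 2`
  set t : ℝ := ((q + b) / 2 - a) / (b - a) with ht
  have ht1 : t * (b - a) = (q + b) / 2 - a := by rw [ht]; field_simp
  have ht0 : 0 ≤ t := by rw [ht]; apply div_nonneg <;> linarith
  have htlt : t < 1 := by rw [ht, div_lt_one hd]; linarith
  have e1 := hab t ht0 htlt.le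
  rw [ht1, hfix b hb, show a + ((q + b) / 2 - a) = (q + b) / 2 by ring,
    hfix ((q + b) / 2) (by linarith)] at e1
  -- `(1 - t) (g a - a) = 0`
  have e2 : (1 - t) * (g a - a) = 0 := by linear_combination -e1 - ht1
  have e3 : g a = a := by
    rcases mul_eq_zero.mp e2 with h | h
    · exfalso; linarith
    · linarith
  have hle : q ≤ a := by
    apply hq.2
    intro x hx
    by_contra hxa
    push Not at hxa
    apply hx
    rcases lt_or_ge b x with hbx | hbx
    · exact hfix x (hb.trans hbx)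
    · set r : ℝ := (x - a) / (b - a) with hr
      have hr1 : r * (b - a) = x - a := by rw [hr]; field_simp
      have hr0 : 0 ≤ r := by rw [hr]; apply div_nonneg <;> linarith
      have hrle : r ≤ 1 := by rw [hr, div_le_one hd]; linarith
      have e4 := hab r hr0 hrle
      rw [hfix b hb, e3, hr1, show a + (x - a) = x by ring] at e4
      exact e4
  linarith

/-- `g` fixes `q` and is linear with slope `l` on the left of `q` -/
def LeftLin (g : ℝ ≃o ℝ) (q l : ℝ) : Prop :=
  ∃ ε > 0, ∀ x, q - ε ≤ x → x ≤ q → g x = q + l * (x - q)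

theorem LeftLin.mul {g h : ℝ ≃o ℝ} {q l m : ℝ} (hg : LeftLin g q l) (hh : LeftLin h q m)
    (hm : 0 < m) : LeftLin (g * h) q (l * m) := by
  obtain ⟨ε, hε, hg⟩ := hg
  obtain ⟨δ, hδ, hh⟩ := hh
  refine ⟨min δ (ε / m), lt_min hδ (div_pos hε hm), fun x h1 h2 => ?_⟩
  have h3 : q - δ ≤ x := by have := min_le_left δ (ε / m); linarith
  have h4 : q - ε / m ≤ x := by have := min_le_right δ (ε / m); linarith
  have h5 : m * (x - q) ≤ 0 := mul_nonpos_of_nonneg_of_nonpos hm.le (by linarith)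
  have h6 : -ε ≤ m * (x - q) := by
    have h7 : m * (-(ε / m)) ≤ m * (x - q) := mul_le_mul_of_nonneg_left (by linarith) hm.le
    have h8 : m * (-(ε / m)) = -ε := by field_simp
    linarith
  rw [RelIso.mul_apply, hh x h3 h2, hg _ (by linarith) (by linarith)]
  ring

theorem LeftLin.inv {g : ℝ ≃o ℝ} {q l : ℝ} (hg : LeftLin g q l) (hl : 0 < l) :
    LeftLin g⁻¹ q l⁻¹ := by
  obtain ⟨ε, hε, hg⟩ := hg
  refine ⟨l * ε, mul_pos hl hε, fun y h1 h2 => ?_⟩
  apply g.injective
  rw [RelIso.apply_inv_self, hg]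
  · field_simp
    ring
  · have : l⁻¹ * (-(l * ε)) ≤ l⁻¹ * (y - q) :=
      mul_le_mul_of_nonneg_left (by linarith) (inv_nonneg.mpr hl.le)
    have h3 : l⁻¹ * (-(l * ε)) = -ε := by field_simp
    linarith
  · have : l⁻¹ * (y - q) ≤ 0 :=
      mul_nonpos_of_nonneg_of_nonpos (inv_nonneg.mpr hl.le) (by linarith)
    linarith

theorem Accepted.leftLin {g : ℝ ≃o ℝ} (G : Accepted ρ g) {q : ℝ} (h0 : 0 < q) (h1 : q ≤ 1)
    (hq : g q = q) : ∃ l > 0, LeftLin g q l := by
  obtain ⟨L, k1, -, k3⟩ := G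
  obtain ⟨p, hp, ha, hb⟩ := k1.inv.2.2.2 q h0 h1
  have hab := k3 p hp
  set a := p.1 with hadef
  set b := p.2.1 with hbdef
  have hd : 0 < b - a := by linarith
  have hgab : g a < g b := g.lt_iff_lt.mpr (by linarith)
  have hval : ∀ x, a ≤ x → x ≤ b → g x = g a + (x - a) / (b - a) * (g b - g a) := by
    intro x hx1 hx2
    have := hab ((x - a) / (b - a)) (div_nonneg (by linarith) hd.le)
      ((div_le_one hd).mpr (by linarith))
    rw [show a + (x - a) / (b - a) * (b - a) = x by field_simp; ring] at this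
    exact this
  refine ⟨(g b - g a) / (b - a), div_pos (by linarith) hd, q - a, by linarith,
    fun x hx1 hx2 => ?_⟩
  have e1 := hval x (by linarith) (by linarith)
  have e2 := hval q ha.le hb
  rw [hq] at e2
  linear_combination e1 - e2

theorem leftLin_wf {a b : ℝ ≃o ℝ} {q l m : ℝ} (ha : LeftLin a q l) (hb : LeftLin b q m)
    (hl : 0 < l) (hm : 0 < m) : LeftLin (wf a b) q 1 := by
  have hl' : 0 < l⁻¹ := inv_pos.mpr hl
  have hm' : 0 < m⁻¹ := inv_pos.mpr hm
  have h1 : LeftLin (a⁻¹ * b * a) q (l⁻¹ * m * l) := ((ha.inv hl).mul hb hm).mul ha hl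
  have h2 : LeftLin (a⁻¹ * b * a)⁻¹ q (l⁻¹ * m * l)⁻¹ := h1.inv (by positivity)
  have h3 : LeftLin (b * (a⁻¹ * b * a)⁻¹) q (m * (l⁻¹ * m * l)⁻¹) := hb.mul h2 (by positivity)
  have h4 := ((ha.mul h3 (by positivity)).mul (ha.inv hl) hl')
  have h5 := ((ha.mul h4 (by positivity)).mul (ha.inv hl) hl')
  have h6 : l * (l * (m * (l⁻¹ * m * l)⁻¹) * l⁻¹) * l⁻¹ = 1 := by field_simp
  rw [h6] at h5
  exact h5

theorem not_fixed {a b : ℝ ≃o ℝ} (A : Accepted ρ a) (B : Accepted ρ b) {q : ℝ}
    (hq : SupSupp (wf a b) q) (h0 : 0 < q) (h1 : q ≤ 1) (ha : a q = q) (hb : b q = q) :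
    False := by
  obtain ⟨l, hl, hal⟩ := A.leftLin h0 h1 ha
  obtain ⟨m, hm, hbm⟩ := B.leftLin h0 h1 hb
  obtain ⟨ε, hε, h⟩ := leftLin_wf hal hbm hl hm
  have h2 : q ≤ q - ε := by
    apply hq.2
    intro x hx
    by_contra h3
    push Not at h3
    apply hx
    rw [h x h3.le (hq.1 hx)]
    ring
  linarith

/-- The main step: two accepted elements satisfying the relations of the generators of `F`. -/
theorem main_step {a b : ℝ ≃o ℝ} (A : Accepted ρ a) (B : Accepted ρ b) (haF : a ∈ F)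
    (hbF : b ∈ F) (r1 : b * wf a b = wf a b * b)
    (r2 : ∀ j : ℕ, 3 ≤ j → (b ^ j)⁻¹ * ((a ^ j)⁻¹ * wf a b * a ^ j) * b ^ j =
      (a ^ j)⁻¹ * ((a ^ j)⁻¹ * wf a b * a ^ j) * a ^ j)
    (r3 : wf a b ≠ 1) : ∃ e : CoreSemigroup X, e * e = e := by
  have hwF : wf a b ∈ F := by
    unfold wf
    exact F.mul_mem (F.mul_mem haF (F.mul_mem (F.mul_mem haF (F.mul_mem hbF (F.inv_mem
      (F.mul_mem (F.mul_mem (F.inv_mem haF) hbF) haF)))) (F.inv_mem haF))) (F.inv_mem haF)
  have hwA : Accepted ρ (wf a b) := by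
    unfold wf
    exact (A.mul ((A.mul (B.mul ((A.inv.mul B).mul A).inv)).mul A.inv)).mul A.inv
  -- the supremum of the support
  obtain ⟨x, hx⟩ : ∃ x, wf a b x ≠ x := by
    by_contra hcon
    push Not at hcon
    apply r3
    ext x
    exact hcon x
  have hx0 : 0 < x := by
    by_contra h
    exact hx (hwF.1 x (by linarith))
  have hub : ∀ y, wf a b y ≠ y → y ≤ 1 := by
    intro y hy
    by_contra h
    exact hy (hwF.2.1 y (by linarith))
  set q := sSup {x | wf a b x ≠ x} with hqdef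
  have hq : SupSupp (wf a b) q := isLUB_csSup ⟨x, hx⟩ ⟨1, fun y hy => hub y hy⟩
  have hq0 : 0 < q := hx0.trans_le (hq.1 hx)
  have hq1 : q ≤ 1 := hq.2 (fun y hy => hub y hy)
  have hbq : b⁻¹ q = q := by
    have h1 := hq.conj (k := b)
    have h2 : b⁻¹ * wf a b * b = wf a b := by
      rw [mul_assoc, ← r1, inv_mul_cancel_left]
    rw [h2] at h1
    exact h1.unique hq
  have hbq' : b q = q := by
    nth_rewrite 1 [← hbq]
    exact RelIso.apply_inv_self b q
  have hbj : ∀ j : ℕ, (b ^ j)⁻¹ q = q := by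
    intro j
    induction j with
    | zero => rfl
    | succ j ih => rw [pow_succ, mul_inv_rev, RelIso.mul_apply, ih, hbq]
  by_cases hj : ∀ j : ℕ, 3 ≤ j → (a ^ j)⁻¹ q = q
  · exfalso
    have h3 := hj 3 le_rfl
    have h4 := hj 4 (by norm_num)
    have h3' : (a ^ 3) q = q := by
      nth_rewrite 1 [← h3]
      exact RelIso.apply_inv_self (a ^ 3) q
    have h4' : (a ^ 4) q = q := by
      nth_rewrite 1 [← h4]
      exact RelIso.apply_inv_self (a ^ 4) q
    have haq : a q = q := by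
      rw [pow_succ', RelIso.mul_apply, h3'] at h4'
      exact h4'
    exact not_fixed A B hq hq0 hq1 haq hbq'
  · push Not at hj
    obtain ⟨j, hj3, hne⟩ := hj
    have HA : Accepted ρ (a ^ j)⁻¹ := (A.pow j).inv
    have HB : Accepted ρ (b ^ j)⁻¹ := (B.pow j).inv
    have hF : (a ^ j)⁻¹ ∈ F := F.inv_mem (F.pow_mem haF j)
    have hpos : ∀ y, 0 < y → 0 < (a ^ j)⁻¹ y := by
      intro y hy
      rw [← hF.1 0 le_rfl]
      exact ((a ^ j)⁻¹).lt_iff_lt.mpr hy
    have hle : ∀ y, y ≤ 1 → (a ^ j)⁻¹ y ≤ 1 := by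
      intro y hy
      rw [← hF.2.1 1 le_rfl]
      exact ((a ^ j)⁻¹).le_iff_le.mpr hy
    refine idem_of_points HA HB (hwA.cut hq) hq0.le (hpos _ (hpos _ hq0)).le (hle _ hq1) hne
      (hbj j) ?_
    have h1 := hq.conj (k := a ^ j)
    have h2 := h1.conj (k := b ^ j)
    have h3 := h1.conj (k := a ^ j)
    rw [r2 j hj3] at h2
    exact h2.unique h3

end Core

/-- The only-if direction. Let `H` be any subgroup of `F` (closed or not) and let `X` be any
set of reduced diagrams generating `H`. If `H` has a subgroup isomorphic to `F`, then the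
semigroup defined by the core rewriting system of `H` contains an idempotent. -/
theorem result (H : Subgroup F) (X : Set (Tree × Tree)) (hX : ∀ D ∈ X, IsReduced D)
    (hgen : Subgroup.closure {f : F | ∃ D ∈ X, Represents D (f : ℝ ≃o ℝ)} = H)
    (hcopy : ∃ K : Subgroup F, K ≤ H ∧ Nonempty (F ≃* K)) :
    ∃ e : CoreSemigroup X, e * e = e := by
  obtain ⟨K, hKH, ⟨φ⟩⟩ := hcopy
  set Φ : F →* (ℝ ≃o ℝ) := F.subtype.comp (K.subtype.comp φ.toMonoidHom) with hΦ
  have hinj : Function.Injective Φ :=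
    F.subtype_injective.comp (K.subtype_injective.comp φ.injective)
  have hmemF : ∀ f, Φ f ∈ F := fun f => ((φ f : K) : F).2
  set a : F := ⟨x0, x0_mem⟩ with ha
  set b : F := ⟨x1, x1_mem⟩ with hb
  have hwmap : ∀ {G G' : Type} [Group G] [Group G'] (ψ : G →* G') (x y : G),
      ψ (wf x y) = wf (ψ x) (ψ y) := by
    intro G G' _ _ ψ x y
    unfold wf
    simp only [map_mul, map_inv]
  have hw : F.subtype (wf a b) = wf x0 x1 := hwmap _ _ _
  have hXne : ∃ D, D ∈ X := by
    by_contra hcon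
    push Not at hcon
    have h1 : {f : F | ∃ D ∈ X, Represents D (f : ℝ ≃o ℝ)} = ∅ := by
      ext f
      constructor
      · rintro ⟨D, hD, -⟩
        exact absurd hD (hcon D)
      · exact fun h => h.elim
    rw [h1, Subgroup.closure_empty] at hgen
    have h2 : ∀ f : F, Φ f = 1 := by
      intro f
      have h3 : ((φ f : K) : F) ∈ H := hKH (φ f).2
      rw [← hgen, Subgroup.mem_bot] at h3
      change (((φ f : K) : F) : ℝ ≃o ℝ) = 1
      rw [h3]
      rfl
    have h4 : wf a b = 1 := hinj ((h2 _).trans (map_one Φ).symm)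
    apply R3
    rw [← hw, h4, map_one]
  obtain ⟨D₀, hD₀⟩ := hXne
  set ρ : CoreEdge X := cls ⟨D₀, hD₀, false, [], Tree.isVertex_nil _⟩ with hρdef
  have hρ : IsRoot ρ := by
    intro c hc
    exact Quotient.sound (s := glueSetoid X) (Glue.root _ _ hc rfl)
  have hacc : ∀ f ∈ H, Accepted ρ (f : ℝ ≃o ℝ) := by
    intro f hf
    rw [← hgen] at hf
    induction hf using Subgroup.closure_induction with
    | mem f hf =>
      obtain ⟨D, hD, hr⟩ := hf
      exact accepted_of_represents hρ hD (hX D hD).1 hr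
    | one => exact Accepted.one
    | mul f g _ _ h1 h2 => exact h1.mul h2
    | inv f _ h => exact h.inv
  have hacc' : ∀ f, Accepted ρ (Φ f) := fun f => hacc _ (hKH (φ f).2)
  have s1 : b * wf a b = wf a b * b := by
    apply F.subtype_injective
    rw [map_mul, map_mul, hw]
    exact R1
  have s2 : ∀ j : ℕ, 3 ≤ j → (b ^ j)⁻¹ * ((a ^ j)⁻¹ * wf a b * a ^ j) * b ^ j =
      (a ^ j)⁻¹ * ((a ^ j)⁻¹ * wf a b * a ^ j) * a ^ j := by
    intro j hj
    apply F.subtype_injective
    simp only [map_mul, map_inv, map_pow, hw]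
    exact R2 hj
  have s3 : wf a b ≠ 1 := by
    intro h
    apply R3
    rw [← hw, h, map_one]
  apply main_step (hacc' a) (hacc' b) (hmemF a) (hmemF b)
  · rw [← hwmap Φ, ← map_mul, s1, map_mul]
  · intro j hj
    rw [← hwmap Φ]
    simp only [← map_mul, ← map_inv, ← map_pow]
    rw [s2 j hj]
  · rw [← hwmap Φ]
    intro h
    exact s3 (hinj (h.trans (map_one Φ).symm))

end Pool.Agent.Results.MP_80b09e_al.OnlyIf
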